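import Pool.Agent.H62.EF.Defs

/-!
Project EF, module EF3: the prism identity.
-/

namespace Pool.Agent.H97.EF
open Finset Pool.Agent.H62.EF

theorem prism_del_lt {X : Type*} (x : ℕ → X) (k j : ℕ) (h : j < k + 1) :
    (fun i => prism (k + 1) x (del j i)) = prism k (fun i => x (del j i)) := by
  funext i
  simp only [prism, del]
  split_ifs <;> first | rfl | omega | (congr 2; omega)

theorem prism_del_eq {X : Type*} (x : ℕ → X) (k : ℕ) :
    (fun i => prism k x (del k i)) = fun i => (x i, decide (k ≤ i)) := by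
  funext i
  by_cases h : i < k
  · have h1 : ¬ k ≤ i := by omega
    have h2 : i ≤ k := by omega
    simp [prism, del, h, h1, h2]
  · have h1 : k ≤ i := by omega
    have h2 : ¬ i + 1 ≤ k := by omega
    simp [prism, del, h, h1, h2]

theorem prism_del_succ {X : Type*} (x : ℕ → X) (k : ℕ) :
    (fun i => prism k x (del (k + 1) i)) = fun i => (x i, decide (k + 1 ≤ i)) := by
  funext i
  by_cases h : i < k + 1
  · have h1 : ¬ k + 1 ≤ i := by omega
    have h2 : i ≤ k := by omega
    simp [prism, del, h, h2]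
  · have h1 : k + 1 ≤ i := by omega
    have h2 : ¬ i + 1 ≤ k := by omega
    simp [prism, del, h, h1, h2]

theorem prism_del_gt {X : Type*} (x : ℕ → X) (k j : ℕ) (h : k + 1 ≤ j) :
    (fun i => prism k x (del (j + 1) i)) = prism k (fun i => x (del j i)) := by
  funext i
  simp only [prism, del]
  split_ifs <;> first | rfl | omega | (congr 2; omega)

/-- EF3. Prism identity. -/
theorem EF3 {X : Type*} (m : ℕ) (F : (ℕ → X × Bool) → ℤ)
    (hF : ∀ y : ℕ → X × Bool, ∑ j ∈ range (m + 2), (-1 : ℤ) ^ j * F (fun i => y (del j i)) = 0)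
    (x : ℕ → X) :
    F (fun i => (x i, true)) - F (fun i => (x i, decide (m < i))) =
      ∑ j ∈ range (m + 1), (-1 : ℤ) ^ j *
        ∑ k ∈ range m, (-1 : ℤ) ^ k * F (prism k (fun i => x (del j i))) := by
  set a : ℕ → ℕ → ℤ := fun k j => F (prism k (fun i => x (del j i))) with ha
  set t : ℕ → ℤ := fun k => F (fun i => (x i, decide (k ≤ i))) with ht
  set A : ℕ → ℤ := fun k => ∑ j ∈ range (k + 1), (-1 : ℤ) ^ j * a k j with hA
  set B : ℕ → ℤ := fun k => ∑ j ∈ Ico (k + 1) (m + 1), (-1 : ℤ) ^ j * a k j with hB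
  have split : ∀ k, k ≤ m → ∀ f : ℕ → ℤ, ∑ j ∈ range (m + 2), f j =
      ∑ j ∈ range k, f j + f k + f (k + 1) + ∑ j ∈ Ico (k + 1) (m + 1), f (j + 1) := by
    intro k hk f
    have h1 : ∑ j ∈ range (m + 2), f j =
        ∑ j ∈ range (k + 2), f j + ∑ j ∈ Ico (k + 2) (m + 2), f j :=
      (sum_range_add_sum_Ico f (by omega)).symm
    rw [h1, sum_range_succ, sum_range_succ]
    congr 1
    rw [← sum_Ico_add' f (k + 1) (m + 1) 1]
  have tail : ∀ k, ∑ j ∈ Ico (k + 1) (m + 1), (-1 : ℤ) ^ (j + 1) *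
      F (fun i => prism k x (del (j + 1) i)) = - B k := by
    intro k
    rw [hB, ← sum_neg_distrib]
    refine sum_congr rfl fun j hj => ?_
    rw [mem_Ico] at hj
    rw [prism_del_gt x k j hj.1, pow_succ]
    ring
  have h0 : t 0 - t 1 = B 0 := by
    have h := hF (prism 0 x)
    rw [split 0 (Nat.zero_le _) (fun j => (-1 : ℤ) ^ j * F (fun i => prism 0 x (del j i)))] at h
    rw [tail 0, prism_del_eq x 0] at h
    simp only [prism_del_succ x 0] at h
    simp only [range_zero, sum_empty, pow_zero, one_mul, zero_add, pow_one] at h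
    have h' : t 0 - t (0 + 1) - B 0 = 0 := by
      rw [ht]
      simp only [zero_add]
      linarith [h]
    simpa using sub_eq_zero.mp h'
  have hs : ∀ k, k + 1 ≤ m → t (k + 1) - t (k + 2) = (-1 : ℤ) ^ (k + 1) * (B (k + 1) - A k) := by
    intro k hk
    have h := hF (prism (k + 1) x)
    rw [split (k + 1) hk (fun j => (-1 : ℤ) ^ j * F (fun i => prism (k + 1) x (del j i)))] at h
    rw [tail (k + 1)] at h
    have e1 : ∑ j ∈ range (k + 1), (-1 : ℤ) ^ j * F (fun i => prism (k + 1) x (del j i)) = A k := by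
      rw [hA]
      refine sum_congr rfl fun j hj => ?_
      rw [mem_range] at hj
      rw [prism_del_lt x k j hj]
    rw [e1, prism_del_eq x (k + 1)] at h
    simp only [prism_del_succ x (k + 1)] at h
    have h' : A k + (-1 : ℤ) ^ (k + 1) * t (k + 1) + (-1 : ℤ) ^ (k + 1 + 1) * t (k + 2)
        - B (k + 1) = 0 := by
      rw [ht]
      simp only
      linarith [h]
    have hsq : (-1 : ℤ) ^ (k + 1) * (-1 : ℤ) ^ (k + 1) = 1 := by
      rw [← mul_pow]; simp
    have h'' : (-1 : ℤ) ^ (k + 1) * (t (k + 1) - t (k + 2)) = B (k + 1) - A k := by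
      rw [pow_succ (-1 : ℤ) (k + 1)] at h'
      linarith [h']
    calc t (k + 1) - t (k + 2)
        = ((-1 : ℤ) ^ (k + 1) * (-1 : ℤ) ^ (k + 1)) * (t (k + 1) - t (k + 2)) := by
          rw [hsq, one_mul]
      _ = (-1 : ℤ) ^ (k + 1) * ((-1 : ℤ) ^ (k + 1) * (t (k + 1) - t (k + 2))) := by ring
      _ = (-1 : ℤ) ^ (k + 1) * (B (k + 1) - A k) := by rw [h'']
  have main : ∀ K, K ≤ m → t 0 - t (K + 1) =
      ∑ k ∈ range K, (-1 : ℤ) ^ k * (A k + B k) + (-1 : ℤ) ^ K * B K := by
    intro K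
    induction K with
    | zero => intro _; simpa using h0
    | succ K ih =>
      intro hK
      have h1 := ih (by omega)
      have h2 := hs K hK
      rw [sum_range_succ]
      have e : (-1 : ℤ) ^ (K + 1) = - (-1 : ℤ) ^ K := by rw [pow_succ]; ring
      rw [e] at h2 ⊢
      have h3 : t 0 - t (K + 1 + 1) = (t 0 - t (K + 1)) + (t (K + 1) - t (K + 2)) := by ring
      rw [h3, h1, h2]
      ring
  have hm := main m le_rfl
  have hBm : B m = 0 := by rw [hB]; simp
  rw [hBm, mul_zero, add_zero] at hm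
  have e0 : F (fun i => (x i, true)) = t 0 := by
    rw [ht]; simp
  have e1 : F (fun i => (x i, decide (m < i))) = t (m + 1) := by
    rw [ht]; simp only [Nat.succ_le_iff]
  rw [e0, e1, hm]
  have : ∀ k ∈ range m, (-1 : ℤ) ^ k * (A k + B k) =
      ∑ j ∈ range (m + 1), (-1 : ℤ) ^ j * ((-1 : ℤ) ^ k * a k j) := by
    intro k hk
    rw [mem_range] at hk
    have hAB : A k + B k = ∑ j ∈ range (m + 1), (-1 : ℤ) ^ j * a k j := by
      rw [hA, hB]
      exact sum_range_add_sum_Ico (fun j => (-1 : ℤ) ^ j * a k j) (by omega)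
    rw [hAB, mul_sum]
    exact sum_congr rfl fun j _ => by ring
  rw [sum_congr rfl this, sum_comm]
  refine sum_congr rfl fun j _ => ?_
  rw [mul_sum]

end Pool.Agent.H97.EF
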